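import Pool.Agent.Results.MP_9faec4_nt.PencilPullbacks
import Pool.Agent.U695.LG.Wt
import Pool.Agent.U695.SQ.Seq
import Pool.Agent.U695.SQ.Pt
import Pool.Agent.U695.SQ.Mul

/-!
# Quadratic twists over `k(t)` with analytic rank at most one over all constant extensions of degree prime
# to three and in towers

Let `k` be any finite field of odd characteristic, with `q` elements, and `f` a monic irreducible cubic
polynomial over `k`. For a squarefree polynomial `D` let `E_D` be the elliptic curve
`D(t) y ^ 2 = (x - t) f(x)` over `k(t)`, a quadratic twist of one curve whose `j`-invariant is not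
constant. (The curves `D(t) y ^ 2 = (x - h(t)) f(x)` are the elliptic curves over `k(t)` whose points of
order two generate the constant cubic extension.) Let `D` be good if no prime factor of `D` has a degree
divisible by three.

* **Count.** Among the monic squarefree `D` of degree `d` at least
  `(1 - 3 / (2 q)) ∏_{m ≤ d / 3} (1 - 1 / (3 m)) q ^ d` are good, a proportion of at least
  `(1 / 3) (3 / d) ^ (1 / 3)` of all, for all `q` and `d`. For fixed degree this is a positive proportion,
  uniform in the finite field and in `f`.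
* **Constant extensions.** For all good `D`, all finite extensions `k'` of `k` of degree prime to three and
  all `ε` in `k'` which are not squares the sum of the orders of vanishing at `s = 1` of the `L`-functions
  of `E_D` and `E_{ε D}` over `k'(t)` is at most one. So at least one of them does not vanish; by the
  theorems of Tate and Milne the rank of this curve is zero, and the full formula of Birch and
  Swinnerton-Dyer holds.
* **Base change.** The same is true for the base change by `t = h(s)` if the degree of `h` is odd, `f(h)` is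
  irreducible and no prime factor of `D(h)` has a degree divisible by three, over `k'(s)`, `[k' : k]` prime
  to `3 deg h`. Let `M` be a set of odd primes different from three which divide `q - 1`, and `S` a set in
  `k`, stable under the maps `w ↦ w ^ m + c`, `c` in `S`, `m` a product of primes in `M`, such that the
  values of `f` at the elements of `S` are not `ℓ`-th powers for `ℓ` in `M`. Then all the composites `h` of
  the polynomials `s ^ m + c` have this property for ALL good `D` at the same time. For example, if `f(0)` is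
  not an `ℓ`-th power then the sum of the orders of `E_D` and `E_{ε D}` is at most one in the whole tower
  of the fields `k'(t ^ (1 / ℓ ^ j))`, `[k' : k]` prime to `3 ℓ`.

Proof. The orders: the identity modulo two for the `L`-functions of the library (`TH943.LP`). The count:
for a squarefree `D` the degree is the sum of the degrees of the prime factors; this gives
`d a_d = ∑ λ_i a_{d-i}` for the number `a_d` of the good `D`, with `λ_i ≥ 0` and
`λ_i = q ^ i - 2 q ^ (i / 2)` (`q ^ i` if `i` is odd) for the `i` not divisible by three, and the sequence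
`q ^ d (g_d - g_{d-2} / q)`, `g_d = ∏_{m ≤ d / 3} (1 - 1 / (3 m))`, satisfies the reverse inequality.
-/

set_option autoImplicit false

open Polynomial
open scoped Classical

namespace Pool.Agent.Results.MP_ff7320_nt.PrimeToThreeTwists

open Pool.Agent.Results.MP_9faec4_nt.PencilPullbacks (VanishesTo)
open Pool.Agent.U695.SQ

section defs

variable {k : Type} [Field k]

/-- `f` is a monic irreducible cubic polynomial. -/
structure IsCubic (f : k[X]) : Prop where
  monic : f.Monic
  irreducible : Irreducible f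
  degree : f.natDegree = 3

/-- `D` is not zero and no prime factor of `D` has a degree divisible by three. -/
def IsGood (D : k[X]) : Prop :=
  D ≠ 0 ∧ ∀ P : k[X], Irreducible P → P ∣ D → ¬ 3 ∣ P.natDegree

/-- The multiplicities of all prime factors of `D` are odd: `D = A B ^ 2` with a squarefree `A` which is
divisible by all prime factors of `B`. -/
def OddMultiplicities (D : k[X]) : Prop :=
  ∃ A B : k[X], D = A * B ^ 2 ∧ Squarefree A ∧ ∀ P : k[X], Irreducible P → P ∣ B → P ∣ A

/-- Over all the finite extensions `k'` of `k` of degree prime to `n`: for all `ε` in `k'` which are not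
squares the sum of the orders of vanishing at `s = 1` of the `L`-functions over `k'(s)` of the curves
`D(h(s)) y ^ 2 = (x - h(s)) f(x)` and `ε D(h(s)) y ^ 2 = (x - h(s)) f(x)`, the base changes of `E_D` and
`E_{ε D}` by `t = h(s)`, is at most one. -/
def SumAtMostOne (n : ℕ) (f h D : k[X]) : Prop :=
  ∀ (k' : Type) [Field k'] [Finite k'] [Algebra k k'], Nat.Coprime n (Module.finrank k k') →
    ∀ ε : k', ¬ IsSquare ε → ∀ m m' : ℕ,
      VanishesTo (f.map (algebraMap k k')) (h.map (algebraMap k k'))
        ((D.comp h).map (algebraMap k k')) m →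
      VanishesTo (f.map (algebraMap k k')) (h.map (algebraMap k k'))
        (C ε * (D.comp h).map (algebraMap k k')) m' →
      m + m' ≤ 1

/-- The composites of the polynomials `X ^ m + c`, where `c` is in `S`, `m` is odd and all prime factors
of `m` are in `M`. -/
inductive IsComposite (M : Set ℕ) (S : Set k) : k[X] → Prop
  | id : IsComposite M S X
  | comp {h : k[X]} {m : ℕ} {c : k} : IsComposite M S h → Odd m →
      (∀ ℓ : ℕ, ℓ.Prime → ℓ ∣ m → ℓ ∈ M) → c ∈ S → IsComposite M S (h.comp (X ^ m + C c))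

/-- The set `S` is stable under `w ↦ w ^ m + c`, `c` in `S`, `m` odd with all prime factors in `M`. -/
def Stable (M : Set ℕ) (S : Set k) : Prop :=
  ∀ w ∈ S, ∀ c ∈ S, ∀ m : ℕ, Odd m → (∀ ℓ : ℕ, ℓ.Prime → ℓ ∣ m → ℓ ∈ M) → w ^ m + c ∈ S

/-- The monic squarefree polynomials of degree `d`. -/
noncomputable def family (k : Type) [Field k] [Finite k] (d : ℕ) : Finset k[X] :=
  Pool.Agent.U695.LG.Sf k d

theorem mem_family {k : Type} [Field k] [Finite k] {d : ℕ} {D : k[X]} :
    D ∈ family k d ↔ D.Monic ∧ D.natDegree = d ∧ Squarefree D :=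
  Pool.Agent.U695.LG.mem_Sf

/-- The good ones. -/
noncomputable def goodOnes (k : Type) [Field k] [Finite k] (d : ℕ) : Finset k[X] :=
  (family k d).filter fun D => IsGood D

/-- `∏_{m ≤ t} (1 - 1 / (3 m))` -/
noncomputable def share (t : ℕ) : ℝ := ∏ m ∈ Finset.range t, (1 - 1 / (3 * ((m : ℝ) + 1)))

end defs

section proof

variable {k : Type} [Field k]

theorem good_iff {D : k[X]} : IsGood D ↔ D ≠ 0 ∧ NT D := Iff.rfl

theorem comp_iff {M : Set ℕ} {S : Set k} {h : k[X]} (hh : IsComposite M S h) :
    Pool.Agent.R915.It.IsComposite M S h := by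
  induction hh with
  | id => exact .id
  | comp _ hm hM hc ih => exact .comp ih hm hM hc

theorem general [Finite k] (h2 : (2 : k) ≠ 0) {f : k[X]} (hf : IsCubic f) {h : k[X]}
    (hh : Odd h.natDegree) (hfh : Irreducible (f.comp h)) {D : k[X]} (hD : IsGood (D.comp h)) :
    SumAtMostOne (3 * h.natDegree) f h D := by
  intro k' _ _ _ hc ε hε m m' hm hm'
  have h2' : (2 : k') ≠ 0 := by
    have h3 := (map_ne_zero (algebraMap k k')).2 h2
    rwa [map_ofNat] at h3
  obtain ⟨G, hG⟩ := hm
  obtain ⟨G', hG'⟩ := hm'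
  rw [Pool.Agent.Results.MP_9faec4_nt.PencilPullbacks.Lfun_eq] at hG hG'
  obtain ⟨G0, hG0⟩ := Pool.Agent.TH943.LP.combine h2' hε _ _ _ m m' G G' hG hG'
  refine total_le_one h2' (hf.monic.map _) (irr_map hf.irreducible ?_) ?_ ?_ ?_ ?_ ?_ m m' G0 hG0
  · rw [hf.degree]
    exact Nat.Coprime.coprime_mul_right hc
  · rw [natDegree_map]
    exact hf.degree
  · rw [← Polynomial.map_comp]
    refine irr_map hfh ?_
    rw [natDegree_comp, hf.degree]
    exact hc
  · rw [natDegree_map]
    exact hh
  · exact (Polynomial.map_ne_zero_iff (algebraMap k k').injective).2 hD.1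
  · exact NT.map hD.1 hD.2

theorem pow_tower {ℓ : ℕ} (hℓ : ℓ.Prime) (ho : Odd ℓ) (j : ℕ) :
    IsComposite {ℓ} ({0} : Set k) (X ^ ℓ ^ j) := by
  induction j with
  | zero => simpa using IsComposite.id (k := k) (M := {ℓ}) (S := {0})
  | succ j ih =>
    have h1 := IsComposite.comp (m := ℓ) (c := (0 : k)) ih ho ?_ rfl
    · have e : ((X : k[X]) ^ ℓ ^ j).comp (X ^ ℓ + C 0) = X ^ ℓ ^ (j + 1) := by
        rw [C_0, add_zero, pow_comp, X_comp, ← pow_mul, pow_succ, mul_comm]
      rwa [e] at h1
    · intro ℓ' h3 h4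
      exact (Nat.prime_dvd_prime_iff_eq h3 hℓ).1 h4

theorem share_cube (M : ℕ) (hM : 1 ≤ M) : 8 / 27 * (1 / (M : ℝ)) ≤ share M ^ 3 := by
  induction M, hM using Nat.le_induction with
  | base => norm_num [share]
  | succ M hM ih =>
    have hM0 : (0 : ℝ) < M := by exact_mod_cast hM
    have e : share (M + 1) = share M * (1 - 1 / (3 * ((M : ℝ) + 1))) := by
      unfold share
      rw [Finset.prod_range_succ]
    rw [e, mul_pow]
    have h1 : (1 : ℝ) - 1 / ((M : ℝ) + 1) ≤ (1 - 1 / (3 * ((M : ℝ) + 1))) ^ 3 := by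
      have hx : 0 < 1 / ((M : ℝ) + 1) := by positivity
      have hx1 : 1 / ((M : ℝ) + 1) ≤ 1 := by
        rw [div_le_one (by positivity)]
        linarith
      have e1 : 1 / (3 * ((M : ℝ) + 1)) = 1 / ((M : ℝ) + 1) / 3 := by
        field_simp
      rw [e1]
      set x := 1 / ((M : ℝ) + 1)
      nlinarith [mul_pos hx hx, mul_nonneg (mul_pos hx hx).le (sub_nonneg.2 hx1)]
    have h2 : (0 : ℝ) ≤ 1 - 1 / ((M : ℝ) + 1) := by
      rw [sub_nonneg, div_le_one (by positivity)]
      linarith
    have h3 := mul_le_mul ih h1 h2 (le_trans (by positivity) ih)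
    refine le_trans (le_of_eq ?_) h3
    push_cast
    field_simp
    ring

theorem share_ge (d : ℕ) (hd : 1 ≤ d) : 2 / 3 * (3 / (d : ℝ)) ^ ((1 : ℝ) / 3) ≤ share (d / 3) := by
  have hd0 : (0 : ℝ) < d := by exact_mod_cast hd
  have hpos : 0 ≤ share (d / 3) := by
    unfold share
    refine Finset.prod_nonneg fun m _ => ?_
    rw [sub_nonneg, div_le_one (by positivity)]
    have : (0 : ℝ) ≤ m := by positivity
    linarith
  have h1 : 8 / 27 * (3 / (d : ℝ)) ≤ share (d / 3) ^ 3 := by
    rcases Nat.eq_zero_or_pos (d / 3) with h | h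
    · rw [h]
      have e : share 0 = 1 := by simp [share]
      rw [e, one_pow]
      have h2 : (1 : ℝ) ≤ d := by exact_mod_cast hd
      have h3 : 3 / (d : ℝ) ≤ 3 := by
        rw [div_le_iff₀ hd0]
        linarith
      linarith
    · refine le_trans ?_ (share_cube _ h)
      have hM0 : (0 : ℝ) < (d / 3 : ℕ) := by exact_mod_cast h
      have h2 : ((d / 3 : ℕ) : ℝ) * 3 ≤ d := by
        have := Nat.div_mul_le_self d 3
        exact_mod_cast this
      have h3 : 3 / (d : ℝ) ≤ 1 / ((d / 3 : ℕ) : ℝ) := by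
        rw [div_le_div_iff₀ hd0 hM0]
        linarith
      linarith
  have h2 : (2 / 3 * (3 / (d : ℝ)) ^ ((1 : ℝ) / 3)) ^ 3 = 8 / 27 * (3 / (d : ℝ)) := by
    rw [mul_pow, ← Real.rpow_natCast ((3 / (d : ℝ)) ^ ((1 : ℝ) / 3)) 3, ← Real.rpow_mul
      (by positivity)]
    norm_num
  rw [← h2] at h1
  exact (pow_le_pow_iff_left₀ (by positivity) hpos (by norm_num)).1 h1

theorem count [Finite k] (h2 : (2 : k) ≠ 0) (d : ℕ) :
    (1 - 3 / (2 * (Nat.card k : ℝ))) * share (d / 3) * (Nat.card k : ℝ) ^ d ≤
      ((goodOnes k d).card : ℝ) := by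
  have hq : 3 ≤ Nat.card k := Pool.Agent.U695.LG.three_le h2
  have hq' : (3 : ℝ) ≤ Nat.card k := by exact_mod_cast hq
  have h1 := lower k hq Nat.prime_three (by decide) d
  have h3 := vv_ge hq' (le_refl 3) d
  have e : gg 3 d = share (d / 3) := by
    unfold gg gam share
    norm_num
  rw [e] at h3
  have h4 : ((goodOnes k d).card : ℝ) = (aa k 3 d : ℝ) := by
    have h5 : goodOnes k d = T k 3 d := by
      ext D
      unfold goodOnes
      rw [Finset.mem_filter, mem_family, mem_T]
      constructor
      · rintro ⟨h6, h7⟩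
        exact ⟨h6, h7.2⟩
      · rintro ⟨h6, h7⟩
        exact ⟨h6, h6.1.ne_zero, h7⟩
    rw [h5]
    unfold aa
    rw [Int.cast_natCast]
  rw [h4]
  refine le_trans ?_ h1
  rw [mul_comm]
  exact mul_le_mul_of_nonneg_left h3 (by positivity)

end proof

theorem result (k : Type) [Field k] [Finite k] (h2 : (2 : k) ≠ 0) (f : k[X]) (hf : IsCubic f) :
    -- all constant extensions of degree prime to three
    (∀ D : k[X], Squarefree D → IsGood D → SumAtMostOne 3 f X D) ∧
    -- base change by `t = h(s)`
    (∀ D h : k[X], Odd h.natDegree → Irreducible (f.comp h) → OddMultiplicities (D.comp h) →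
      IsGood (D.comp h) → SumAtMostOne (3 * h.natDegree) f h D) ∧
    -- composites, for all good `D` at the same time
    (∀ (M : Set ℕ) (S : Set k), (∀ ℓ ∈ M, ℓ ≠ 3 ∧ ℓ ∣ Nat.card k - 1) → Stable M S →
      (∀ ℓ ∈ M, ℓ.Prime → ∀ w ∈ S, ∀ z : k, z ^ ℓ ≠ f.eval w) →
      ∀ h : k[X], IsComposite M S h → ∀ D : k[X], Squarefree D → IsGood D →
        OddMultiplicities (D.comp h) ∧ SumAtMostOne (3 * h.natDegree) f h D) ∧
    -- towers
    (∀ ℓ : ℕ, ℓ.Prime → ℓ ≠ 2 → ℓ ≠ 3 → ℓ ∣ Nat.card k - 1 → (∀ z : k, z ^ ℓ ≠ f.eval 0) →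
      ∀ D : k[X], Squarefree D → IsGood D → ∀ j : ℕ,
        OddMultiplicities (D.comp (X ^ ℓ ^ j)) ∧ SumAtMostOne (3 * ℓ) f (X ^ ℓ ^ j) D) ∧
    -- the number of the good `D`
    (∀ d : ℕ, (1 - 3 / (2 * (Nat.card k : ℝ))) * share (d / 3) * (Nat.card k : ℝ) ^ d ≤
      ((goodOnes k d).card : ℝ)) ∧
    (∀ d : ℕ, 1 ≤ d → 1 / 3 * (3 / (d : ℝ)) ^ ((1 : ℝ) / 3) * ((family k d).card : ℝ) ≤
      ((goodOnes k d).card : ℝ)) := by
  have hcomp : ∀ (M : Set ℕ) (S : Set k), (∀ ℓ ∈ M, ℓ ≠ 3 ∧ ℓ ∣ Nat.card k - 1) → Stable M S →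
      (∀ ℓ ∈ M, ℓ.Prime → ∀ w ∈ S, ∀ z : k, z ^ ℓ ≠ f.eval w) →
      ∀ h : k[X], IsComposite M S h → ∀ D : k[X], Squarefree D → IsGood D →
        OddMultiplicities (D.comp h) ∧ SumAtMostOne (3 * h.natDegree) f h D := by
    intro M S hM hS hN h hh D hs hD
    have hh' := comp_iff hh
    have h3 := OM.composite (fun ℓ hℓ => (hM ℓ hℓ).2) hD.1 (OM.of_squarefree hs) hh'
    have h4 := NT.composite hM hD.1 hD.2 hh'
    have h5 : Irreducible (f.comp h) :=
      irr_closed hS hf.monic hf.irreducible (fun ℓ h6 h7 => hN ℓ h7 h6) hh'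
    exact ⟨h3.2, general h2 hf hh'.odd h5 ⟨h4.1, h4.2⟩⟩
  refine ⟨?_, ?_, hcomp, ?_, count h2, ?_⟩
  · intro D _ hD
    have h3 := general h2 hf (h := X) (D := D) (by rw [natDegree_X]; exact odd_one)
      (by rw [comp_X]; exact hf.irreducible) (by rw [comp_X]; exact hD)
    rwa [natDegree_X, mul_one] at h3
  · intro D h hh hfh _ hD
    exact general h2 hf hh hfh hD
  · intro ℓ hℓ h2' h3 hd hN D hs hD j
    have ho : Odd ℓ := hℓ.odd_of_ne_two h2'
    have hS : Stable {ℓ} ({0} : Set k) := by
      intro w hw c hc m hm _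
      rw [Set.mem_singleton_iff] at hw hc ⊢
      have hm0 : m ≠ 0 := by
        rintro rfl
        exact absurd hm (by decide)
      rw [hw, hc, zero_pow hm0, add_zero]
    have h4 := hcomp {ℓ} {0} (by
        intro ℓ' hℓ'
        rw [Set.mem_singleton_iff] at hℓ'
        subst hℓ'
        exact ⟨h3, hd⟩) hS (by
        intro ℓ' hℓ' _ w hw z
        rw [Set.mem_singleton_iff] at hℓ' hw
        rw [hℓ', hw]
        exact hN z) (X ^ ℓ ^ j) (pow_tower hℓ ho j) D hs hD
    refine ⟨h4.1, ?_⟩
    intro k' _ _ _ hc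
    refine h4.2 k' ?_
    rw [natDegree_X_pow]
    exact Nat.Coprime.mul_left (Nat.Coprime.coprime_mul_right hc)
      ((Nat.Coprime.coprime_mul_left hc).pow_left _)
  · intro d hd
    refine le_trans ?_ (count h2 d)
    have hq : 3 ≤ Nat.card k := Pool.Agent.U695.LG.three_le h2
    have hq' : (3 : ℝ) ≤ Nat.card k := by exact_mod_cast hq
    have h3 := share_ge d hd
    have h4 : (1 : ℝ) / 2 ≤ 1 - 3 / (2 * (Nat.card k : ℝ)) := by
      have h5 : 3 / (2 * (Nat.card k : ℝ)) ≤ 1 / 2 := by
        rw [div_le_div_iff₀ (by positivity) (by norm_num)]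
        linarith
      linarith
    have h5 : ((family k d).card : ℝ) ≤ (Nat.card k : ℝ) ^ d := by
      have h6 : (family k d).card ≤ Nat.card k ^ d := by
        rw [← Pool.Agent.U695.LG.card_Mn k d]
        exact Finset.card_le_card (Finset.filter_subset _ _)
      exact_mod_cast h6
    have h6 : 1 / 3 * (3 / (d : ℝ)) ^ ((1 : ℝ) / 3) ≤
        (1 - 3 / (2 * (Nat.card k : ℝ))) * share (d / 3) := by
      have h7 : 0 ≤ (3 / (d : ℝ)) ^ ((1 : ℝ) / 3) := by positivity
      have h8 : (1 : ℝ) / 2 * (2 / 3 * (3 / (d : ℝ)) ^ ((1 : ℝ) / 3)) ≤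
          (1 - 3 / (2 * (Nat.card k : ℝ))) * share (d / 3) :=
        mul_le_mul h4 h3 (by positivity) (by linarith)
      linarith
    exact mul_le_mul h6 h5 (by positivity) (le_trans (by positivity) h6)

end Pool.Agent.Results.MP_ff7320_nt.PrimeToThreeTwists
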