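import Pool.Agent.U693.TU.Final

/-!
# The conjecture of Birch and Swinnerton-Dyer for a positive proportion of all tuples of elliptic curves over
# `k(t)`, over a common infinite class of function fields

Let `k` be a finite field of characteristic larger than `3` and `K = k(t)`. Every elliptic curve `E` over
`K` has an equation `y ^ 2 = f(x) = x ^ 3 + a x + b`, `a`, `b` in `k[t]`, such that there is no irreducible
`P` with `P ^ 4 ∣ a` and `P ^ 6 ∣ b`; its height is the least `N` with `deg a ≤ 2 N`, `deg b ≤ 3 N`.

For `f_1, …, f_m` and a finite set `S` of primes of `k[t]` let `C(f_1, …, f_m; S)` be the class of all the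
finite Galois extensions `M` of `K` of 2-power degree in which all `Q ∈ S` split completely and in which
only such primes `P` of `k[t]` are ramified modulo which ALL the `f_i` are irreducible (there is no condition
at infinity).

Theorem. Let `m ≥ 1` and let `M₀` be any finite Galois extension of `K` of 2-power degree. There are a finite
set `S` of primes and a constant `c > 0` such that for all large `N` at least `c` times the number of ALL the
`m`-tuples `(E_1, …, E_m)` of elliptic curves over `K` of height at most `N` have the following properties: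

* `M₀` is in the class `C(f_1, …, f_m; S)`, the class is closed under composita, and there is an infinite
  set `Y` of primes such that all the `K(√D)`, `D` a product of an even number of different elements of
  `Y`, are in it;
* for ALL `M` in the class, ALL fields `L` between `K` and `M` (Galois over `K` or not), ALL `i` and ALL
  homomorphisms `χ : Gal(L^sep / L) → {1, -1}` which are trivial on `Gal(L^sep / M)` the quadratic twist
  `E_{i,χ}` over `L` has the following property: multiplication by two is bijective on `E_{i,χ}(L)`, and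
  every class of 2-power order in `H ^ 1 (L, E_{i,χ})` which is zero over the completions of `L` at the
  places which are not over infinity is zero; so `Ш(E_{i,χ} / L)[2 ^ ∞] = 0`.

The group `E_{i,χ}(L)` is finitely generated, so it is finite (of odd order), and by the theorem of Artin,
Tate and Milne (it is enough to know that ONE primary part of `Ш` is finite), listed as known in the problem
and not formalized, Q1 holds for all the `E_{i,χ}` over `L`, both sides being `0`. So the conjecture holds
for `m` curves at the same time over all the function fields contained in an infinite extension of `K`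
which depends on the `m` curves; for every `m` for a positive proportion of all `m`-tuples.

What is new. The case `m = 1`, `χ = 1`, `L = M` (a positive proportion of all curves, without any statement on
the members of the class) is the starting result `MP_ff7320_nt.UniformOverTwoExtensions` (project TW,
helper874); with the members of the class it is in my `MP_60d5ce_nt.UniformOverInfiniteClass`, and with the
fields `L` and the twists in my `MP_48b749_nt.AllTwistsOverSubfields` (one curve). For several curves the
classes of the single curves could have nothing in common but the subfields of `M₀`: the point is the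
existence of infinitely many primes `P` modulo which `m` given polynomials over `k[t]` which are irreducible
at infinity are irreducible AT THE SAME TIME (`Pool/Agent/U693/TU`, `common`). This is a case of Chebotarev's
theorem for the compositum of `m` splitting fields. Proof: Hensel's lemma at infinity gives all the zeros of
all the `f_i` in the power series, a Frobenius-equivariant primitive element of the compositum over `k̄(t)`
defines a curve over extensions of `k` of degree prime to the degrees of the `f_i`, which has points by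
Weil's bound; at such a point the Frobenius permutation of the zeros of `∏ f_i` is the one at infinity. It has
`m` orbits, so `∏ f_i` has at most `m` irreducible factors there, and each `f_i` is irreducible.
-/


set_option autoImplicit false
set_option linter.all false

namespace Pool.Agent.Results.MP_ff7320_nt.TuplesOverInfiniteClass

open Polynomial Filter IsDedekindDomain
open Pool.Agent.Y160.SE (jm)
open Pool.Agent.N874.Jac (J mapJ)
open scoped Classical

/-- `y ^ 2 = f(x) = x ^ 3 + a x + b` is a minimal Weierstrass equation of an elliptic curve over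
`K = k(t)`, with `a`, `b` in `k[t]` of degree at most `2 N` and `3 N`. -/
structure IsCurve {k : Type} [Field k] (K : Type) [Field K] [Algebra k[X] K] (N : ℕ)
    (f : k[X][X]) : Prop where
  monic : f.Monic
  degree : f.natDegree = 3
  trace : f.coeff 2 = 0
  height : (f.coeff 1).natDegree ≤ 2 * N ∧ (f.coeff 0).natDegree ≤ 3 * N
  smooth : (f.map (algebraMap k[X] K)).Separable
  minimal : ∀ P : k[X], Irreducible P → ¬ (P ^ 4 ∣ f.coeff 1 ∧ P ^ 6 ∣ f.coeff 0)

/-- The elliptic curves over `K = k(t)` of height at most `N`. -/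
def Curves (k : Type) [Field k] (K : Type) [Field K] [Algebra k[X] K] (N : ℕ) : Set k[X][X] :=
  {f | IsCurve K N f}

section twists

/-- The absolute Galois group of `L`, with the Krull topology. -/
abbrev GS (L : Type) [Field L] : Type := SeparableClosure L ≃ₐ[L] SeparableClosure L

variable {L : Type} [Field L] (F : L[X])

/-- The group `E(L')`, written additively, of the elliptic curve `E : y ^ 2 = F(x)`: the Picard group of
the affine curve over `L'`. -/
abbrev Pt (L' : Type) [Field L'] [Algebra L L'] : Type := Additive (J F L')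

/-- The map `E(L') → E(L'')`, `P ↦ ε φ(P)`, for a homomorphism `φ` of fields and a sign `ε`. -/
noncomputable def move (ε : ℤˣ) {L' L'' : Type} [Field L'] [Field L''] [Algebra L L']
    [Algebra L L''] (φ : L' →ₐ[L] L'') (P : Pt F L') : Pt F L'' :=
  (ε : ℤ) • (mapJ F φ).toAdditive P

/-- Functions on the absolute Galois group with values in `E(L^sep)`. -/
abbrev Cochain : Type := GS L → Pt F (SeparableClosure L)

variable (χ : GS L →* ℤˣ)

/-- The action of the Galois group on `E_χ(L^sep) = E(L^sep)`: `σ * P = χ(σ) σ(P)`. -/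
noncomputable def act (σ : GS L) (P : Pt F (SeparableClosure L)) : Pt F (SeparableClosure L) :=
  move F (χ σ) σ.toAlgHom P

/-- `c` is a continuous cocycle of the absolute Galois group with values in `E_χ(L^sep)`. -/
def IsCocycle (c : Cochain F) : Prop :=
  IsLocallyConstant c ∧ ∀ σ τ, c (σ * τ) = c σ + act F χ σ (c τ)

/-- `c` is a coboundary. -/
def IsCoboundary (c : Cochain F) : Prop := ∃ P, ∀ σ, c σ = act F χ σ P - P

/-- For every embedding `ι` of the separable closures the restriction of `c` to the absolute Galois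
group of the extension `L'` of `L`, with values in `E_χ`, is a coboundary. An automorphism `τ` over `L'`
acts by `P ↦ χ(σ) τ(P)`, where `σ` is the restriction of `τ`. -/
def LocallyTrivial (L' : Type) [Field L'] [Algebra L L'] (c : Cochain F) : Prop :=
  ∀ ι : SeparableClosure L →ₐ[L] SeparableClosure L', ∃ P : Pt F (SeparableClosure L'),
    ∀ (τ : GS L') (σ : GS L), (∀ x, τ (ι x) = ι (σ x)) →
      move F 1 ι (c σ) = move F (χ σ) (τ.toAlgHom.restrictScalars L) P - P

/-- `P` is in `E_χ(L)`. -/
def IsPoint (P : Pt F (SeparableClosure L)) : Prop := ∀ σ : GS L, act F χ σ P = P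

variable (R : Type) [CommRing R] [IsDedekindDomain R] [Algebra R L] [IsFractionRing R L]

/-- The class of `c` is zero over the completions of `L` at all maximal ideals of `R`. -/
def TrivialAtPrimes (c : Cochain F) : Prop :=
  ∀ v : HeightOneSpectrum R, LocallyTrivial F χ (v.adicCompletion L) c

/-- Multiplication by two is bijective on `E_χ(L)`, and every class of 2-power order in
`H ^ 1 (L, E_χ)` which is zero over the completions of `L` at all maximal ideals of `R` is zero. -/
structure NoTwoPart : Prop where
  injective : ∀ P, IsPoint F χ P → 2 • P = 0 → P = 0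
  surjective : ∀ P, IsPoint F χ P → ∃ Q, IsPoint F χ Q ∧ 2 • Q = P
  sha : ∀ (c : Cochain F) (m : ℕ), IsCocycle F χ c → TrivialAtPrimes F χ R c →
    IsCoboundary F χ (fun σ => 2 ^ m • c σ) → IsCoboundary F χ c

end twists

/-- `f` is irreducible modulo `P`. -/
def IrreducibleMod {k : Type} [Field k] (f : k[X][X]) (P : k[X]) : Prop :=
  Irreducible (f.map (Ideal.Quotient.mk (Ideal.span {P})))

/-- `P` is unramified in the extension `R` of `k[t]`. -/
def Unramified {k : Type} [Field k] (R : Type) [CommRing R] [Algebra k[X] R] (P : k[X]) : Prop :=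
  ∀ 𝔭 : Ideal R, 𝔭.IsPrime → algebraMap k[X] R P ∉ 𝔭 ^ 2

/-- `Q` splits completely in the extension `R` of `k[t]`: it is unramified, and every element of `R` is
congruent to a polynomial modulo every prime over `Q`. -/
def SplitsCompletely {k : Type} [Field k] (R : Type) [CommRing R] [Algebra k[X] R] (Q : k[X]) :
    Prop :=
  Unramified R Q ∧ ∀ 𝔭 : Ideal R, 𝔭.IsPrime → algebraMap k[X] R Q ∈ 𝔭 →
    ∀ x : R, ∃ c : k[X], x - algebraMap k[X] R c ∈ 𝔭

/-- The class `C(f₁, …, f_m; S)`: the finite Galois extensions `M` of `K = k(t)` of 2-power degree in which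
all `Q ∈ S` split completely and in which only such primes `P` of `k[t]` are ramified modulo which ALL the
polynomials `f_i` are irreducible. -/
structure InClass {k : Type} [Field k] (K : Type) [Field K] [Algebra k[X] K] (S : Finset k[X]) {m : ℕ}
    (f : Fin m → k[X][X]) (M : Type) [Field M] [Algebra K M] [Algebra k[X] M] : Prop where
  finite : FiniteDimensional K M
  galois : IsGalois K M
  degree : ∃ n : ℕ, Module.finrank K M = 2 ^ n
  split : ∀ Q ∈ S, SplitsCompletely (integralClosure k[X] M) Q
  ramified : ∀ P : k[X], Irreducible P →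
    Unramified (integralClosure k[X] M) P ∨ ∀ i, IrreducibleMod (f i) P

/-- The field `N` is generated by the images of `M₁` and `M₂`. -/
def IsCompositum (M₁ M₂ N : Type) [Field M₁] [Field M₂] [Field N] [Algebra M₁ N]
    [Algebra M₂ N] : Prop :=
  ∀ F : Subfield N, (∀ x : M₁, algebraMap M₁ N x ∈ F) → (∀ x : M₂, algebraMap M₂ N x ∈ F) → F = ⊤

/-- The field `M` is generated by `r` over `K`. -/
def IsGeneratedBy (K : Type) {M : Type} [Field K] [Field M] [Algebra K M] (r : M) : Prop :=
  ∀ F : Subfield M, (∀ x : K, algebraMap K M x ∈ F) → r ∈ F → F = ⊤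

section properties

variable {k : Type} [Field k] (K : Type) [Field K] [Algebra k[X] K] (S : Finset k[X]) {m : ℕ}
  (f : Fin m → k[X][X])

/-- The class is closed under composita. -/
def ClosedUnderComposita : Prop :=
  ∀ (M₁ M₂ N : Type) [Field M₁] [Algebra K M₁] [Algebra k[X] M₁] [IsScalarTower k[X] K M₁]
    [Field M₂] [Algebra K M₂] [Algebra k[X] M₂] [IsScalarTower k[X] K M₂]
    [Field N] [Algebra K N] [Algebra k[X] N] [IsScalarTower k[X] K N] [Algebra M₁ N]
    [IsScalarTower K M₁ N] [Algebra M₂ N] [IsScalarTower K M₂ N], IsCompositum M₁ M₂ N →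
    InClass K S f M₁ → InClass K S f M₂ → InClass K S f N

/-- The extension `K(√D)` is in the class. -/
def QuadraticInClass (D : k[X]) : Prop :=
  ∀ (M : Type) [Field M] [Algebra K M] [Algebra k[X] M] [IsScalarTower k[X] K M] (r : M),
    r ^ 2 = algebraMap k[X] M D → IsGeneratedBy K r → InClass K S f M

/-- There are infinitely many primes such that the extensions by square roots of products of an even
number of different ones are in the class. -/
def ManyQuadratic : Prop :=
  ∃ Y : Set k[X], Y.Infinite ∧ (∀ P ∈ Y, P.Monic ∧ Irreducible P) ∧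
    ∀ A : Finset k[X], (A : Set k[X]) ⊆ Y → Even A.card → QuadraticInClass K S f (∏ P ∈ A, P)

/-- For all the members `M` of the class, ALL the fields `L` between `K` and `M`, all the curves `E_i` and all
`χ : Gal(L^sep / L) → {1, -1}` which are trivial on the automorphisms over the image of `M` in `L^sep` the
quadratic twist of `E_i` by `χ` over `L` has no 2-part. Here `R` is the integral closure of `k[t]` in
`L`. -/
def AllTwists : Prop :=
  ∀ (M : Type) [Field M] [Algebra K M] [Algebra k[X] M] [IsScalarTower k[X] K M],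
    InClass K S f M → ∀ (L : Type) [Field L] [Algebra K L] [Algebra k[X] L]
    [IsScalarTower k[X] K L] [Algebra L M] [IsScalarTower K L M] (R : Type) [CommRing R]
    [IsDedekindDomain R] [Algebra R L] [IsFractionRing R L] [Algebra k[X] R]
    [IsScalarTower k[X] R L] [IsIntegralClosure R k[X] L]
    (ψ : M →ₐ[L] SeparableClosure L) (χ : GS L →* ℤˣ),
    (∀ σ : GS L, (∀ x : M, σ (ψ x) = ψ x) → χ σ = 1) →
    ∀ i, NoTwoPart ((f i).map (algebraMap k[X] L)) χ R

end properties

/-- The property of the curves `E_i : y ^ 2 = f_i(x)`: the given extension `M₀` is in the common class, the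
class is closed under composita and contains infinitely many quadratic extensions, and all quadratic twists
of all the `E_i` over subfields of its members which are split by the members have no 2-part. -/
structure Good {k : Type} [Field k] (K : Type) [Field K] [Algebra k[X] K]
    (S : Finset k[X]) (M₀ : Type) [Field M₀] [Algebra K M₀] [Algebra k[X] M₀] {m : ℕ}
    (f : Fin m → k[X][X]) : Prop where
  base : InClass K S f M₀
  composita : ClosedUnderComposita K S f
  many : ManyQuadratic K S f
  twists : AllTwists K S f

/-- The `m`-tuples of elliptic curves over `K` of height at most `N` with the property. -/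
def GoodTuples (k : Type) [Field k] (K : Type) [Field K] [Algebra k[X] K]
    (S : Finset k[X]) (M₀ : Type) [Field M₀] [Algebra K M₀] [Algebra k[X] M₀] (m N : ℕ) :
    Set (Fin m → k[X][X]) :=
  {f | (∀ i, f i ∈ Curves k K N) ∧ Good K S M₀ f}

theorem class_iff {k : Type} [Field k] {K : Type} [Field K] [Algebra k[X] K]
    [IsFractionRing k[X] K] {S : Finset k[X]} (hS : ∀ Q ∈ S, Irreducible Q) {m : ℕ}
    {f : Fin m → k[X][X]} {M : Type} [Field M] [Algebra K M] [Algebra k[X] M]
    [IsScalarTower k[X] K M] :
    InClass K S f M ↔ Pool.Agent.U693.FF.Cls k[X] K S (Pool.Agent.U693.TU.AllIrr f) M := by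
  constructor
  · intro h
    refine ⟨h.finite, h.galois, h.degree, fun Q hQ 𝔭 h𝔭 hm => ?_, fun P hP hex => ?_⟩
    · exact ⟨(h.split Q hQ).1 𝔭 h𝔭, (h.split Q hQ).2 𝔭 h𝔭 hm⟩
    · obtain ⟨𝔭, h𝔭, h2⟩ := hex
      exact (h.ramified P hP).resolve_left fun h3 => h3 𝔭 h𝔭 h2
  · intro h
    refine ⟨h.finite, h.galois, h.degree, fun Q hQ => ⟨fun 𝔭 h𝔭 h2 => ?_, fun 𝔭 h𝔭 hm => ?_⟩,
      fun P hP => ?_⟩
    · exact (h.split Q hQ 𝔭 h𝔭 (Ideal.pow_le_self two_ne_zero h2)).1 h2
    · exact (h.split Q hQ 𝔭 h𝔭 hm).2
    · by_cases h1 : Unramified (integralClosure k[X] M) P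
      · exact Or.inl h1
      · right
        apply h.ram P hP
        unfold Unramified at h1
        push Not at h1
        exact h1

theorem mapJ_eq {L : Type} [Field L] (F : L[X]) {E E' : Type} [Field E] [Field E'] [Algebra L E]
    [Algebra L E'] (φ : E →ₐ[L] E') (x : Additive (J F E)) :
    (mapJ F φ).toAdditive x = jm 2 F φ x := Pool.Agent.N106.JB.ad_mapJ φ x.toMul

/-- The one-dimensional representation given by a character. -/
noncomputable def rep {L : Type} [Field L] (χ : GS L →* ℤˣ) :
    GS L →* Matrix.GeneralLinearGroup (Fin 1) ℤ :=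
  (Units.map ((Matrix.scalar (Fin 1) : ℤ →+* Matrix (Fin 1) (Fin 1) ℤ) :
    ℤ →* Matrix (Fin 1) (Fin 1) ℤ)).comp χ

theorem rep_val {L : Type} [Field L] (χ : GS L →* ℤˣ) (σ : GS L) (i j : Fin 1) :
    (rep χ σ).1 i j = (χ σ : ℤ) := by
  have hi : i = 0 := Subsingleton.elim _ _
  have hj : j = 0 := Subsingleton.elim _ _
  subst hi
  subst hj
  show (Matrix.scalar (Fin 1) ((χ σ : ℤˣ) : ℤ)) 0 0 = _
  rw [Matrix.scalar_apply, Matrix.diagonal_apply_eq]

theorem mt_rep {L : Type} [Field L] {F : L[X]} (χ : GS L →* ℤˣ) (σ : GS L) {E E' : Type} [Field E]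
    [Field E'] [Algebra L E] [Algebra L E'] (φ : E →ₐ[L] E') (x : Additive (J F E)) :
    Pool.Agent.U693.AF.mt (rep χ σ).1 (Pool.Agent.U693.AF.mp (jm 2 F φ) (fun _ : Fin 1 => x)) =
      fun _ => move F (χ σ) φ x := by
  funext i
  rw [Pool.Agent.U693.AF.mt_apply, Fin.sum_univ_one, rep_val]
  exact congrArg (fun z => (χ σ : ℤ) • z) (mapJ_eq F φ x).symm

theorem const_eq {A : Type} (x : Fin 1 → A) : (fun _ : Fin 1 => x 0) = x := by
  funext i
  rw [Subsingleton.elim i 0]

/-- The twists which are split by `M`. -/
theorem twist_of {L A : Type} [CommRing A] [IsDedekindDomain A] [Field L] [Algebra A L]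
    [IsFractionRing A L] {F : L[X]} {χ : GS L →* ℤˣ}
    (h : Pool.Agent.U693.AF.NoTwo F (rep χ) A) : NoTwoPart F χ A := by
  obtain ⟨⟨p1, p2⟩, p3⟩ := h
  have key : ∀ (σ : GS L) (x : Additive (J F (SeparableClosure L))),
      Pool.Agent.U693.AF.ta F (rep χ) σ (fun _ : Fin 1 => x) = fun _ => act F χ σ x :=
    fun σ x => mt_rep χ σ σ.toAlgHom x
  refine ⟨fun P hP h0 => ?_, fun P hP => ?_, fun c m hc hl hb => ?_⟩
  · have h1 := p1 (fun _ => P) (fun σ => by rw [key, hP σ]) (by
      funext i
      exact h0)
    exact congrFun h1 0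
  · obtain ⟨y, hy, hy2⟩ := p2 (fun _ => P) (fun σ => by rw [key, hP σ])
    refine ⟨y 0, fun σ => ?_, congrFun hy2 0⟩
    have h3 := hy σ
    rw [← const_eq y] at h3
    exact congrFun ((key σ (y 0)).symm.trans h3) 0
  · have h1 : Pool.Agent.U693.AF.TCoc F (rep χ) (fun σ _ => c σ) := by
      refine ⟨hc.1.comp (fun x => fun _ : Fin 1 => x), fun σ τ => ?_⟩
      funext i
      have h5 := congrFun (mt_rep χ σ σ.toAlgHom (c τ)) i
      exact (hc.2 σ τ).trans (congrArg (fun z => c σ + z) h5.symm)
    have h2 : ∀ v : HeightOneSpectrum A,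
        Pool.Agent.U693.AF.TLoc F (rep χ) (v.adicCompletion L) (fun σ _ => c σ) := by
      intro v ι
      obtain ⟨P, hP⟩ := hl v ι
      refine ⟨fun _ => P, fun τ σ hx => ?_⟩
      funext i
      have h5 := congrFun (mt_rep χ σ (τ.toAlgHom.restrictScalars L) P) i
      have h6 := hP τ σ hx
      have h7 : jm 2 F ι (c σ) = move F 1 ι (c σ) := by
        show _ = ((1 : ℤˣ) : ℤ) • (mapJ F ι).toAdditive (c σ)
        rw [Units.val_one, one_zsmul, mapJ_eq]
      exact (h7.trans h6).trans (congrArg (fun z => z - P) h5.symm)
    have h3 : Pool.Agent.U693.AF.TCob F (rep χ) (fun σ => 2 ^ m • fun _ : Fin 1 => c σ) := by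
      obtain ⟨P, hP⟩ := hb
      refine ⟨fun _ => P, fun σ => ?_⟩
      funext i
      have h5 := congrFun (mt_rep χ σ σ.toAlgHom P) i
      exact (hP σ).trans (congrArg (fun z => z - P) h5.symm)
    obtain ⟨Q, hQ⟩ := p3 (fun σ _ => c σ) m h1 h2 h3
    refine ⟨Q 0, fun σ => ?_⟩
    have h4 := hQ σ
    rw [← const_eq Q] at h4
    have h5 := congrFun (mt_rep χ σ σ.toAlgHom (Q 0)) (0 : Fin 1)
    exact (congrFun h4 0).trans (congrArg (fun z => z - Q 0) h5)

theorem good_of {k : Type} [Field k] [Finite k] (h2 : (2 : k) ≠ 0) {K : Type} [Field K]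
    [Algebra k[X] K] [IsFractionRing k[X] K]
    {S : Finset k[X]} (hS : ∀ Q ∈ S, Irreducible Q)
    {M₀ : Type} [Field M₀] [Algebra K M₀] [Algebra k[X] M₀] [IsScalarTower k[X] K M₀] {m : ℕ}
    {f : Fin m → k[X][X]}
    (hf : ∀ i, (f i).Monic) (ho : ∀ i, Odd (f i).natDegree)
    (hs : ∀ i, ((f i).map (algebraMap k[X] K)).Separable)
    (h : Pool.Agent.U693.TU.PrpT K S M₀ f) : Good K S M₀ f := by
  refine ⟨(class_iff hS).2 h.base, ?_, ?_, ?_⟩
  · intro M₁ M₂ N _ _ _ _ _ _ _ _ _ _ _ _ _ _ _ _ hg h1 h2
    exact (class_iff hS).2 (h.comp M₁ M₂ N hg ((class_iff hS).1 h1) ((class_iff hS).1 h2))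
  · obtain ⟨Y, y1, y2, y3⟩ := h.many
    exact ⟨Y, y1, y2, fun A hA hev M _ _ _ _ r hr hg => (class_iff hS).2 (y3 A hA hev M r hr hg)⟩
  · intro M _ _ _ _ h1 L _ _ _ _ _ _ A _ _ _ _ _ _ _ ψ χ hχ i
    obtain ⟨S', hS', hi⟩ := h.single i
    exact twist_of (Pool.Agent.U693.AF.all_sub h2 (hf i) (ho i) (hs i) hi M
      (Pool.Agent.U693.TU.cls_single hS' ((class_iff hS).1 h1)) L A ψ 1 (rep χ)
      (fun σ hσ => by
        show Units.map _ (χ σ) = 1
        rw [hχ σ hσ, map_one]))

/-- For every `m ≥ 1`, every finite field `k` of characteristic larger than `3` and every finite Galois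
extension `M₀` of `K = k(t)` of 2-power degree there are a finite set `S` of primes of `k[t]` and a positive
constant `c` such that for all large `N` at least `c` times the number of all the `m`-tuples
`(E_1, …, E_m)` of elliptic curves `y ^ 2 = f_i(x)` over `K` of height at most `N` are good: the class of
the finite Galois extensions `M` of `K` of 2-power degree in which all `Q ∈ S` split completely and in which
only primes are ramified modulo which all the `f_i` are irreducible contains `M₀` and all `K(√D)`, `D` a
product of an even number of different elements of an infinite set of primes, it is closed under composita,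
and for ALL `M` in the class, ALL fields `L` between `K` and `M`, ALL `i` and ALL quadratic characters `χ`
of `L` trivial over `M` the quadratic twist of `E_i` by `χ` over `L` has no 2-part: multiplication by two is
bijective on its group of points and the 2-primary part of its Tate-Shafarevich group is zero. -/
theorem result (m : ℕ) (hm : 1 ≤ m) (k : Type) [Field k] [Finite k] (hp : (6 : k) ≠ 0) (K : Type)
    [Field K] [Algebra k[X] K] [IsFractionRing k[X] K]
    (M₀ : Type) [Field M₀] [Algebra K M₀] [Algebra k[X] M₀] [IsScalarTower k[X] K M₀]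
    [FiniteDimensional K M₀] [IsGalois K M₀] (n : ℕ) (hn : Module.finrank K M₀ = 2 ^ n) :
    (∀ N : ℕ, (Curves k K N).Finite) ∧
    ∃ S : Finset k[X], (∀ Q ∈ S, Q.Monic ∧ Irreducible Q) ∧
      ∃ c : ℝ, 0 < c ∧ ∀ᶠ N : ℕ in atTop, 0 < (Curves k K N).ncard ∧
        c * ((Curves k K N).ncard : ℝ) ^ m ≤ ((GoodTuples k K S M₀ m N).ncard : ℝ) := by
  have h2 : (2 : k) ≠ 0 := by
    intro h0
    apply hp
    have e : (6 : k) = 2 * 3 := by norm_num
    rw [e, h0, zero_mul]
  have hp' : ((2 * 1 + 1).factorial : k) ≠ 0 := by
    have e : ((2 * 1 + 1).factorial : k) = 6 := by norm_num [Nat.factorial]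
    rw [e]
    exact hp
  have hsub : ∀ N, Curves k K N ⊆ {f : k[X][X] | Pool.Agent.N352.PJ.Ht 1 N f} :=
    fun N f hf => ⟨hf.monic, hf.degree, hf.trace, fun j hj => by
      have hj' : j = 0 ∨ j = 1 ∨ j = 2 := by omega
      rcases hj' with rfl | rfl | rfl
      · have := hf.height.2
        omega
      · have := hf.height.1
        omega
      · rw [hf.trace, natDegree_zero]
        exact Nat.zero_le _⟩
  have hfin : ∀ N, (Curves k K N).Finite := fun N =>
    (Pool.Agent.N415.PJMAIN.ht_card (k := k) 1 N).1.subset (hsub N)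
  refine ⟨hfin, ?_⟩
  obtain ⟨S, hS, c, hc, N₀, hN₀⟩ :=
    Pool.Agent.U693.TU.finalT (m := m) hm (fun _ => 1) k (fun _ => le_rfl) (fun _ => hp') K M₀ hn
  refine ⟨S, hS, c, hc, ?_⟩
  filter_upwards [eventually_ge_atTop N₀] with N hN
  obtain ⟨hHt, hle⟩ := hN₀ N hN
  have hHt1 := hHt ⟨0, hm⟩
  have hpow : (∏ _i : Fin m, ({f : k[X][X] | Pool.Agent.N352.PJ.Ht 1 N f}.ncard : ℝ)) =
      ({f : k[X][X] | Pool.Agent.N352.PJ.Ht 1 N f}.ncard : ℝ) ^ m := by
    rw [Finset.prod_const, Finset.card_univ, Fintype.card_fin]
  rw [hpow] at hle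
  have hsub2 : {f : Fin m → k[X][X] | (∀ i, Pool.Agent.N352.PJ.Ht 1 N (f i) ∧
      Pool.Agent.N352.PJ.Mini 1 (f i) ∧ ((f i).map (algebraMap k[X] K)).Separable) ∧
      Pool.Agent.U693.TU.PrpT K S M₀ f} ⊆ GoodTuples k K S M₀ m N := by
    rintro f ⟨a, a4⟩
    refine ⟨fun i => ?_, good_of h2 (fun Q hQ => (hS Q hQ).2) (fun i => (a i).1.mon)
      (fun i => by rw [(a i).1.deg]; decide) (fun i => (a i).2.2) a4⟩
    obtain ⟨a1, a2, a3⟩ := a i
    refine ⟨a1.mon, a1.deg, a1.tr, ⟨?_, ?_⟩, a3, fun P hP h => a2 P hP fun j hj => ?_⟩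
    · have := a1.ht 1 (by norm_num)
      omega
    · have := a1.ht 0 (by norm_num)
      omega
    · have hj' : j = 0 ∨ j = 1 ∨ j = 2 := by omega
      rcases hj' with rfl | rfl | rfl
      · exact h.2
      · exact h.1
      · have := a1.tr
        rw [this]
        exact dvd_zero _
  have hfin2 : (GoodTuples k K S M₀ m N).Finite :=
    (Set.Finite.pi' fun _ => hfin N).subset fun f hf => hf.1
  have h1 := Set.ncard_le_ncard hsub2 hfin2
  have h2' : c * ({f : k[X][X] | Pool.Agent.N352.PJ.Ht 1 N f}.ncard : ℝ) ^ m ≤
      ((GoodTuples k K S M₀ m N).ncard : ℝ) := hle.trans (by exact_mod_cast h1)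
  have hne : 0 < {f : k[X][X] | Pool.Agent.N352.PJ.Ht 1 N f}.ncard := by
    rw [Set.ncard_pos hHt1]
    refine ⟨X ^ (2 * 1 + 1), monic_X_pow _, natDegree_X_pow _, ?_, fun j hj => ?_⟩
    · rw [coeff_X_pow, if_neg (by omega)]
    · rw [coeff_X_pow, if_neg (by omega), natDegree_zero]
      exact Nat.zero_le _
  have h3 : 0 < ((GoodTuples k K S M₀ m N).ncard : ℝ) := by
    refine lt_of_lt_of_le ?_ h2'
    exact mul_pos hc (pow_pos (by exact_mod_cast hne) _)
  refine ⟨?_, ?_⟩
  · have h5 : 0 < (GoodTuples k K S M₀ m N).ncard := by exact_mod_cast h3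
    obtain ⟨f, hf⟩ := (Set.ncard_pos hfin2).1 h5
    exact (Set.ncard_pos (hfin N)).2 ⟨_, hf.1 ⟨0, hm⟩⟩
  · refine le_trans ?_ h2'
    have h4 := Set.ncard_le_ncard (hsub N) hHt1
    refine mul_le_mul_of_nonneg_left ?_ hc.le
    exact pow_le_pow_left₀ (Nat.cast_nonneg _) (by exact_mod_cast h4) m

end Pool.Agent.Results.MP_ff7320_nt.TuplesOverInfiniteClass
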