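import Pool.Agent.U965.H3.C

/-!
# Elliptic curves over function fields with ranks and orders three

Let `k` be a finite field which contains a primitive third root of unity `ω`, let `e, u, c` be in `k`,
and `f` in a function field `K` over `k`. The curve is
`E : y ^ 2 = x ^ 3 - 3 u f w ^ 2 x - f (f + u ^ 3) w ^ 3`, `w = c (f - e ^ 3)`, the quadratic twist by
`w` of a curve whose points of order two are defined over `K(s)`, `s ^ 3 = f`; they have the abscissas
`w (u s + s ^ 2)`. It is the pull-back by `f` of a rational elliptic surface with fibres of types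
`I₀*, I₂, II, II`. If `c (e - u)`, `c (ω e - u)`, `c (ω ^ 2 e - u)` are squares there are three
independent points.
-/

set_option autoImplicit false
set_option linter.all false
set_option maxHeartbeats 4000000

open Polynomial Pool.Agent.W343.BSD Pool.Agent.W313.Gr

namespace Pool.Agent.Results.MP_ff7320_nt.TwistedCubicPullbacks

section defs

variable {k K : Type} [Field k] [Field K] [Algebra k K]

/-- The parameters. -/
def IsPar (e ω u c : k) : Prop :=
  e ≠ 0 ∧ ω ^ 2 + ω + 1 = 0 ∧ u ≠ 0 ∧ c ≠ 0 ∧ u ^ 3 ≠ e ^ 3 ∧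
    IsSquare (c * (e - u)) ∧ IsSquare (c * (ω * e - u)) ∧ IsSquare (c * (ω ^ 2 * e - u))

/-- The twisting function `w = c (f - e ^ 3)`. -/
noncomputable def twist (e c : k) (f : K) : K := algebraMap k K c * (f - algebraMap k K (e ^ 3))

/-- The coefficient of `x` of the curve: it is `-3 u f w ^ 2`. -/
noncomputable def coeffA (e u c : k) (f : K) : K :=
  -(3 * algebraMap k K u * f * twist e c f ^ 2)

/-- The constant coefficient: it is `-f (f + u ^ 3) w ^ 3`. -/
noncomputable def coeffB (e u c : k) (f : K) : K :=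
  -(f * (f + algebraMap k K u ^ 3) * twist e c f ^ 3)

open Classical in
/-- The weight of a place: `2` at the zeros of `f - e ^ 3` of odd order, `1` at the zeros of
`f - u ^ 3`, and `0` at all other places. -/
noncomputable def weight (e u : k) (f : K) (v : FF.Place k K) : ℕ :=
  if 0 < v.ord (f - algebraMap k K (e ^ 3)) ∧ Odd (v.ord (f - algebraMap k K (e ^ 3))) then 2
  else if 0 < v.ord (f - algebraMap k K (u ^ 3)) then 1 else 0

/-- The sum of `weight v * 2 ^ v₂(deg v)` over all places `v`. -/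
noncomputable def weightSum (k : Type) {K : Type} [Field k] [Field K] [Algebra k K] (e u : k)
    (f : K) : ℕ :=
  ∑ᶠ v : FF.Place k K, weight e u f v * 2 ^ padicValNat 2 (S.deg v)

/-- `y ^ 2 = x ^ 3 + a x + b` is an elliptic curve with a non-constant `j`-invariant
`6912 a ^ 3 / (4 a ^ 3 + 27 b ^ 2)`. -/
def NonIsotrivial (k : Type) {K : Type} [Field k] [Field K] [Algebra k K] (a b : K) : Prop :=
  4 * a ^ 3 + 27 * b ^ 2 ≠ 0 ∧
    ∀ c : k, 6912 * a ^ 3 / (4 * a ^ 3 + 27 * b ^ 2) ≠ algebraMap k K c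

/-- If `L(T, E)` is `(1 - |k| T) ^ m G(T)` with `G` in `ℤ[T]` then `m ≤ N`. -/
def OrderBound (k : Type) {K : Type} [Field k] [Field K] [Algebra k K] (a b : K) (N : ℕ) : Prop :=
  ∀ m : ℕ, S.VanishesTo k a b m → m ≤ N

/-- The rank is at least `R` and the order of vanishing `r` of `L(T, E)` at `T = 1 / |k|` (if
`L(T, E)` is a polynomial) is at most `R`. If the rank is at most the order then both are `R`. -/
def RankAndOrder (k : Type) {K : Type} [Field k] [Field K] [Algebra k K] (a b : K) (R : ℕ) : Prop :=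
  R ≤ rank a b ∧ OrderBound k a b R ∧
    ∀ r : ℕ, HasOrder k a b r → r ≤ R ∧ (rank a b ≤ r → r = R ∧ rank a b = R)

/-- `f` has no zeros and poles of order congruent to `3` modulo `6`, and it has a cube root `s` in an
extension `L = K(s)` of degree three of `K`, which is the function field of a curve with field of
constants `k` and odd class number. -/
def HasCubeRoot (k : Type) {K : Type} [Field k] [Field K] [Algebra k K] (f : K) : Prop :=
  (∀ v : FF.Place k K, (3 : ℤ) ∣ v.ord f → (6 : ℤ) ∣ v.ord f) ∧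
    ∃ (L : Type) (_ : Field L) (_ : Algebra k L) (_ : Algebra K L) (_ : IsScalarTower k K L) (s : L),
      s ^ 3 = algebraMap K L f ∧ IntermediateField.adjoin K {s} = ⊤ ∧ Module.finrank K L = 3 ∧
      IsCurveField k L ∧ Odd (S.classNumber k L)

/-- `f - e ^ 3` has at most one zero of odd order, `f - u ^ 3` has at most one zero, and these zeros
have odd degree. -/
def IsSingle (k : Type) {K : Type} [Field k] [Field K] [Algebra k K] (e u : k) (f : K) : Prop :=
  ∃ v₁ v₂ : FF.Place k K, Odd (S.deg v₁) ∧ Odd (S.deg v₂) ∧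
    (∀ v : FF.Place k K, 0 < v.ord (f - algebraMap k K (e ^ 3)) →
      Odd (v.ord (f - algebraMap k K (e ^ 3))) → v = v₁) ∧
    ∀ v : FF.Place k K, 0 < v.ord (f - algebraMap k K (u ^ 3)) → v = v₂

/-- The curve has a non-constant `j`-invariant and no point of order two (the cubic has no zero in
`K`). The order of vanishing of its `L`-function is at most `weightSum`, and its rank is at least
three. If `weightSum ≤ 3`, in particular if `IsSingle` holds, then `RankAndOrder` holds with `R = 3`. -/
def Conclusions (k : Type) {K : Type} [Field k] [Field K] [Algebra k K] (e u c : k) (f : K) :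
    Prop :=
  NonIsotrivial k (coeffA e u c f) (coeffB e u c f) ∧
    (∀ x : K, x ^ 3 + coeffA e u c f * x + coeffB e u c f ≠ 0) ∧
    OrderBound k (coeffA e u c f) (coeffB e u c f) (weightSum k e u f) ∧
    3 ≤ rank (coeffA e u c f) (coeffB e u c f) ∧
    (IsSingle k e u f → weightSum k e u f ≤ 3) ∧
    (weightSum k e u f ≤ 3 → RankAndOrder k (coeffA e u c f) (coeffB e u c f) 3)

/-- The function `t ^ m g ^ 6` in `k(t)`. -/
noncomputable def lineFn {k : Type} [Field k] (m : ℕ) (g : RatFunc k) : RatFunc k :=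
  RatFunc.X ^ m * g ^ 6

/-- If a prime `l ≥ 5` divides `|k| - 1` then there is `a` not zero such that for all `j` the function
`f = t ^ (l ^ j) a ^ 6` in `k(t)` is not constant and satisfies `HasCubeRoot` and `IsSingle`. -/
def Sequences {k : Type} [Field k] (e u : k) : Prop :=
  ∀ l : ℕ, l.Prime → 5 ≤ l → l ∣ Nat.card k - 1 → ∃ a : k, a ≠ 0 ∧ ∀ j : ℕ,
    (∀ c : k, lineFn (l ^ j) (algebraMap k (RatFunc k) a) ≠ algebraMap k (RatFunc k) c) ∧
    HasCubeRoot k (lineFn (l ^ j) (algebraMap k (RatFunc k) a)) ∧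
    IsSingle k e u (lineFn (l ^ j) (algebraMap k (RatFunc k) a))

end defs

section proof

open Pool.Agent.U965 Pool.Agent.R427.QC

theorem tw_eq {k K : Type} [Field k] [Field K] [Algebra k K] (e c : k) (f : K) :
    H3.tw c (e ^ 3) f = twist e c f := rfl

theorem A_eq {k K : Type} [Field k] [Field K] [Algebra k K] (e u c : k) (f : K) :
    qA (algebraMap k K u * twist e c f) (twist e c f) f = coeffA e u c f := by
  unfold qA coeffA
  ring

theorem B_eq {k K : Type} [Field k] [Field K] [Algebra k K] (e u c : k) (f : K) :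
    qB (algebraMap k K u * twist e c f) (twist e c f) f = coeffB e u c f := by
  unfold qB coeffB
  ring

theorem sum_eq {k K : Type} [Field k] [Finite k] [Field K] [Algebra k K] [FF.IsFF k K] (e u : k)
    (f : K) : weightSum k e u f = H3.wSum k u (e ^ 3) f := by
  unfold weightSum H3.wSum
  refine finsum_congr fun v => ?_
  unfold weight H3.wt
  rfl

theorem par {k : Type} [Field k] {e ω u c : k} (h : IsPar e ω u c) : H3.Par e ω u c := by
  obtain ⟨h1, h2, h3, h4, h5, ⟨a, ha⟩, ⟨b, hb⟩, ⟨d, hd⟩⟩ := h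
  refine ⟨h1, h2, h3, h4, h5, ?_⟩
  intro i
  have hi3 : i = 0 ∨ i = 1 ∨ i = 2 := by
    fin_cases i
    · exact Or.inl rfl
    · exact Or.inr (Or.inl rfl)
    · exact Or.inr (Or.inr rfl)
  rcases hi3 with rfl | rfl | rfl
  · exact ⟨a, by rw [sq, ← ha]; rfl⟩
  · exact ⟨b, by rw [sq, ← hb]; rfl⟩
  · refine ⟨d, ?_⟩
    show d ^ 2 = c * (-((1 + ω) * e) - u)
    linear_combination -hd + c * e * h2

theorem of_par {k : Type} [Field k] {e ω u c : k} (h : H3.Par e ω u c) : IsPar e ω u c := by
  obtain ⟨h1, h2, h3, h4, h5, hs⟩ := h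
  obtain ⟨a, ha⟩ := hs 0
  obtain ⟨b, hb⟩ := hs 1
  obtain ⟨d, hd⟩ := hs 2
  refine ⟨h1, h2, h3, h4, h5, ⟨a, by rw [← sq, ha]; rfl⟩, ⟨b, by rw [← sq, hb]; rfl⟩, ⟨d, ?_⟩⟩
  have hd' : d ^ 2 = c * (-((1 + ω) * e) - u) := hd
  linear_combination -hd' + c * e * h2

/-- the single zeros -/
theorem single {k K : Type} [Field k] [Finite k] [Field K] [Algebra k K] {e u : k} {f : K}
    (h : IsSingle k e u f) : weightSum k e u f ≤ 3 := by
  classical
  obtain ⟨v₁, v₂, h1, h2, h3, h4⟩ := h
  have t1 : 2 ^ padicValNat 2 (S.deg v₁) = 1 := by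
    rw [padicValNat.eq_zero_of_not_dvd (fun hd => by
      obtain ⟨a, ha⟩ := h1
      omega), pow_zero]
  have t2 : 2 ^ padicValNat 2 (S.deg v₂) = 1 := by
    rw [padicValNat.eq_zero_of_not_dvd (fun hd => by
      obtain ⟨a, ha⟩ := h2
      omega), pow_zero]
  have hw : ∀ v : FF.Place k K, weight e u f v ≤
      (if v = v₁ then 2 else 0) + (if v = v₂ then 1 else 0) := by
    intro v
    unfold weight
    split_ifs with g1 g2 g3 g4 g5 g6 g7 g8 g9 <;> first
      | omega
      | exact absurd (h3 v g1.1 g1.2) (by assumption)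
      | exact absurd (h4 v (by assumption)) (by assumption)
  have h0 : ∀ v : FF.Place k K, v ∉ ({v₁, v₂} : Finset (FF.Place k K)) → weight e u f v = 0 := by
    intro v hv
    rw [Finset.mem_insert, Finset.mem_singleton, not_or] at hv
    have := hw v
    rw [if_neg hv.1, if_neg hv.2] at this
    omega
  unfold weightSum
  rw [finsum_eq_sum_of_support_subset (s := ({v₁, v₂} : Finset (FF.Place k K)))]
  · by_cases h12 : v₁ = v₂
    · subst h12
      rw [Finset.pair_eq_singleton, Finset.sum_singleton, t1]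
      have := hw v₁
      rw [if_pos rfl, if_pos rfl] at this
      omega
    · rw [Finset.sum_pair h12, t1, t2]
      have g1 := hw v₁
      have g2 := hw v₂
      rw [if_pos rfl, if_neg h12] at g1
      rw [if_neg (Ne.symm h12), if_pos rfl] at g2
      omega
  · intro v hv
    rw [Function.mem_support] at hv
    rw [Finset.mem_coe]
    by_contra h5
    apply hv
    rw [h0 v h5, zero_mul]

/-- the conclusions for one curve -/
theorem common {k K : Type} [Field k] [Finite k] [Field K] [Algebra k K] (hK : IsCurveField k K)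
    (h6 : (6 : k) ≠ 0) {e ω u c : k} (hp : IsPar e ω u c) {f : K}
    (hf : ∀ z : k, f ≠ algebraMap k K z) (h : HasCubeRoot k f) : Conclusions k e u c f := by
  haveI : FF.IsFF k K := ⟨hK.essFiniteType, hK.trdeg_eq_one⟩
  have hr : constDeg k K = 1 := TH958.T4.constDeg_eq_one hK.algClosed
  have htr := TH180.R2.transc hr hf
  obtain ⟨ho, L, _, _, _, _, s, hs, hgen, hdeg, hL, hcl⟩ := h
  have hrL : constDeg k L = 1 := TH958.T4.constDeg_eq_one hL.algClosed
  have hq := par hp
  have hΔ := H3.disc_ne' h6 (u := u) (z := e ^ 3) hq.c0 htr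
  rw [tw_eq, A_eq, B_eq] at hΔ
  have hw : twist e c f ≠ 0 :=
    mul_ne_zero ((_root_.map_ne_zero _).2 hq.c0) (H3.ne_of_transc htr _)
  have hb : OrderBound k (coeffA e u c f) (coeffB e u c f) (weightSum k e u f) := by
    intro M hM
    rw [← A_eq, ← B_eq, ← tw_eq] at hM
    rw [sum_eq]
    exact H3.upper' (L := L) h6 hr hrL hcl hq.u0 hq.c0 (pow_ne_zero 3 hq.e0) htr ho hs hgen hdeg
      M hM
  have hrank : ((3 : ℕ) : Cardinal) ≤ rank (coeffA e u c f) (coeffB e u c f) := by
    have := H3.rank_ge h6 hq htr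
    rwa [tw_eq, A_eq, B_eq] at this
  refine ⟨⟨hΔ, ?_⟩, ?_, hb, by exact_mod_cast hrank, single, fun h3 => ?_⟩
  · intro z hz
    rw [div_eq_iff hΔ] at hz
    have h2 : (2 : k) ≠ 0 := fun e => h6 (by linear_combination 3 * e)
    have h3 : (3 : k) ≠ 0 := fun e => h6 (by linear_combination 2 * e)
    have h27K : (27 : K) ≠ 0 := by
      have h27 : (27 : k) ≠ 0 := by
        have : (27 : k) = 3 ^ 3 := by norm_num
        rw [this]
        exact pow_ne_zero 3 h3
      have : algebraMap k K 27 ≠ 0 := by simpa using h27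
      rwa [map_ofNat] at this
    have hf0 : f ≠ 0 := by
      have := hf 0
      rwa [map_zero] at this
    have key : aeval f (C z * (C (u ^ 3) - X) ^ 2 + C (6912 * u ^ 3) * X) = 0 := by
      rw [map_add, map_mul, map_mul, map_pow, map_sub, aeval_X, aeval_C, aeval_C, aeval_C,
        map_mul, map_ofNat, map_pow]
      apply mul_left_cancel₀ (mul_ne_zero (mul_ne_zero h27K (pow_ne_zero 2 hf0))
        (pow_ne_zero 6 hw))
      unfold coeffA coeffB at hz
      linear_combination -hz
    have h0 : C z * (C (u ^ 3) - X) ^ 2 + C (6912 * u ^ 3) * X = 0 := by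
      by_contra hne
      exact htr ⟨_, hne, key⟩
    have h1 := congrArg (eval (u ^ 3)) h0
    simp only [eval_add, eval_mul, eval_pow, eval_sub, eval_C, eval_X, sub_self, eval_zero] at h1
    have h6912 : (6912 : k) ≠ 0 := by
      have : (6912 : k) = 2 ^ 8 * 3 ^ 3 := by norm_num
      rw [this]
      exact mul_ne_zero (pow_ne_zero _ h2) (pow_ne_zero _ h3)
    apply mul_ne_zero (mul_ne_zero h6912 (pow_ne_zero 3 hq.u0)) (pow_ne_zero 3 hq.u0)
    linear_combination h1
  · intro x
    rw [← A_eq, ← B_eq]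
    exact no_root hw hs hgen hdeg x
  · have hU : ∀ m : ℕ, S.VanishesTo k (coeffA e u c f) (coeffB e u c f) m → m ≤ 3 :=
      fun m hm => (hb m hm).trans h3
    exact ⟨hrank, hU, fun r hr' => TH180.R4.concl4 hrank hU r hr'⟩

theorem cube_rat {k : Type} [Field k] [Finite k] {m : ℕ} (hm : ¬ 3 ∣ m) {g : RatFunc k}
    (hg : g ≠ 0) : HasCubeRoot k (lineFn m g) := by
  obtain ⟨s1, s2, s3⟩ := W309.RK.sb k
  obtain ⟨s, hs, hgen⟩ := exists_root hm hg
  exact ⟨orders hm hg, Cub k, inferInstance, inferInstance, inferInstance,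
    inferInstance, s, hs, hgen, finrank_cub, TH958.T4.isCurveField_rat, s3⟩

/-- the sequences -/
theorem sequences {k : Type} [Field k] [Finite k] (h6 : (6 : k) ≠ 0) {e u : k} (he : e ≠ 0)
    (hu : u ≠ 0) : Sequences e u := by
  intro l hl hl5 hd
  have h0 : ((X - C (e ^ 3)) * (X - C (u ^ 3)) : k[X]).coeff 0 ≠ 0 := by
    rw [mul_coeff_zero, coeff_sub, coeff_sub, coeff_X_zero, coeff_C_zero, coeff_C_zero, zero_sub,
      zero_sub]
    exact mul_ne_zero (neg_ne_zero.2 (pow_ne_zero 3 he)) (neg_ne_zero.2 (pow_ne_zero 3 hu))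
  have hdg : ((X - C (e ^ 3)) * (X - C (u ^ 3)) : k[X]).natDegree = 2 := by
    rw [natDegree_mul (X_sub_C_ne_zero _) (X_sub_C_ne_zero _), natDegree_X_sub_C,
      natDegree_X_sub_C]
  obtain ⟨a, ha, hirr⟩ := exists_c (g := (X - C (e ^ 3)) * (X - C (u ^ 3))) h0 hl hl5
    (by rw [hdg]; omega) hd
  refine ⟨a, ha, fun j => ?_⟩
  have ha6 : a ^ 6 ≠ 0 := pow_ne_zero 6 ha
  have hl3 : ¬ 3 ∣ l ^ j := by
    intro h3
    have h5 := Nat.prime_three.dvd_of_dvd_pow h3
    have := (Nat.prime_dvd_prime_iff_eq Nat.prime_three hl).1 h5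
    omega
  have hlodd : Odd (l ^ j) := Odd.pow (hl.odd_of_ne_two (by omega))
  have hmd : (C (a ^ 6) * X ^ l ^ j : k[X]).natDegree = l ^ j := natDegree_C_mul_X_pow _ _ ha6
  have e3 : algebraMap k[X] (RatFunc k) (C (a ^ 6)) = algebraMap k (RatFunc k) (a ^ 6) := rfl
  have e0 : lineFn (l ^ j) (algebraMap k (RatFunc k) a) =
      algebraMap k[X] (RatFunc k) (C (a ^ 6) * X ^ l ^ j) := by
    unfold lineFn
    rw [map_mul, map_pow _ X, RatFunc.algebraMap_X, e3, map_pow, mul_comm]
  have hz : ∀ z : k, (X - C z) ∣ ((X - C (e ^ 3)) * (X - C (u ^ 3)) : k[X]) →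
      ∃ v : FF.Place k (RatFunc k), Odd (S.deg v) ∧ ∀ w : FF.Place k (RatFunc k),
        0 < w.ord (lineFn (l ^ j) (algebraMap k (RatFunc k) a) - algebraMap k (RatFunc k) z) →
        w = v := by
    intro z hdv
    obtain ⟨v, -, hv2, hv3⟩ := J.one_zero_simple (hirr j _ (irreducible_X_sub_C z) hdv)
    have e1 : lineFn (l ^ j) (algebraMap k (RatFunc k) a) - algebraMap k (RatFunc k) z =
        algebraMap k[X] (RatFunc k) ((X - C z : k[X]).comp (C (a ^ 6) * X ^ l ^ j)) := by
      rw [sub_comp, X_comp, C_comp, map_sub, ← e0]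
      rfl
    refine ⟨v, ?_, fun w hw => hv3 w ?_⟩
    · rw [hv2, natDegree_comp, natDegree_X_sub_C, one_mul, hmd]
      exact hlodd
    · rw [e1] at hw
      exact hw
  refine ⟨?_, cube_rat hl3 ((_root_.map_ne_zero _).2 ha), ?_⟩
  · intro z hz'
    rw [e0] at hz'
    have h1 : (C (a ^ 6) * X ^ l ^ j : k[X]) = C z := RatFunc.algebraMap_injective k hz'
    rw [h1, natDegree_C] at hmd
    exact (pow_pos hl.pos j).ne hmd
  · obtain ⟨v₁, g1, g2⟩ := hz (e ^ 3) (dvd_mul_right _ _)
    obtain ⟨v₂, g3, g4⟩ := hz (u ^ 3) (dvd_mul_left _ _)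
    exact ⟨v₁, v₂, g1, g3, fun v hv _ => g2 v hv, g4⟩

end proof

/-- Let `k` be a finite field of characteristic at least `5` with `q` elements which contains a
primitive third root of unity `ω`, and let `e, u, c` be parameters: they are not zero,
`u ^ 3 ≠ e ^ 3`, and `c (e - u)`, `c (ω e - u)`, `c (ω ^ 2 e - u)` are squares in `k`.

(1) Let `K` be the function field of a curve over `k`, and let `f` in `K` be not constant, without
zeros and poles of order congruent to `3` modulo `6`, with a cube root `s` such that `L = K(s)` has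
degree three over `K`, the field of constants `k` and odd class number. Then the curve
`E : y ^ 2 = x ^ 3 - 3 u f w ^ 2 x - f (f + u ^ 3) w ^ 3`, `w = c (f - e ^ 3)`, over `K` has a
non-constant `j`-invariant, no point of order two, and rank at least three. Its `L`-function vanishes
at `1 / q` to order at most the sum of `weight v * 2 ^ v₂(deg v)`. If this sum is at most three, in
particular if `f - e ^ 3` has at most one zero of odd order, `f - u ^ 3` has at most one zero, and
these zeros have odd degree, then the order is at most three, and rank and order are three if the rank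
is at most the order.

(2) If `K = k(t)`, the functions `f = t ^ m g ^ 6`, with `m` prime to `3` and `g` not zero, satisfy the
conditions in (1). If a prime `l ≥ 5` divides `q - 1` then for some `a` not zero in `k` and all `j` the
functions `f = a ^ 6 t ^ (l ^ j)` also satisfy the condition on the zeros.

(3) If `q ≥ 14` there are parameters with `c = 1`. -/
theorem result (k : Type) [Field k] [Finite k] (h6 : (6 : k) ≠ 0) (ω : k)
    (hω : ω ^ 2 + ω + 1 = 0) :
    (∀ e u c : k, IsPar e ω u c →
      (∀ (K : Type) [Field K] [Algebra k K], IsCurveField k K →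
        ∀ f : K, (∀ z : k, f ≠ algebraMap k K z) → HasCubeRoot k f → Conclusions k e u c f) ∧
      Sequences e u) ∧
    (∀ (m : ℕ) (g : RatFunc k), ¬ 3 ∣ m → g ≠ 0 → HasCubeRoot k (lineFn m g)) ∧
    (14 ≤ Nat.card k → ∃ e u : k, IsPar e ω u 1) := by
  refine ⟨?_, fun m g hm hg => cube_rat hm hg, ?_⟩
  · intro e u c hp
    refine ⟨?_, sequences h6 hp.1 hp.2.2.1⟩
    intro K _ _ hK f hf h
    exact common hK h6 hp hf h
  · intro hq
    obtain ⟨e, u, h⟩ := Pool.Agent.U965.H3.exists_par h6 hω hq
    exact ⟨e, u, of_par h⟩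

end Pool.Agent.Results.MP_ff7320_nt.TwistedCubicPullbacks
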