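import Pool.Agent.U273.FS.LfFin

/-!
# Analytic ranks of all twists of `p`-power order from one number modulo `p`

Let `E` be an elliptic curve over a global function field `K` over the field of `q` elements, not constant, so that
`L(E/K, T)` is a polynomial, and `p` a prime number not dividing `q`. Let `b` be the multiplicity of the root `1 / q`
of `L(E/K, T)` **modulo `p`**. A character `χ` of the Galois group of `K` of `p`-power order is *admissible* if
it is ramified only at places `v` with `p ∤ #E(k_v)` (nonsingular points of the reduction). If `E` has no rational
`p`-torsion in a suitable sense these are infinitely many places of positive density, so there are infinitely many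
admissible characters.

**Theorem.**
1. For **all** admissible characters `χ`, of any `p`-power order and any conductor, `L(E, χ, T)` has at `T = 1 / q`
   a zero of order **at most `b`**.
2. So for every finite abelian extension `K'` of `K` of `p`-power exponent with admissible characters the rank of `E(K')`
   and the analytic rank of `E` over `K'` are at most `[K' : K] b`; for `b = 0` both are zero.
3. `p = 2`, `b ≤ 1`: **the Birch and Swinnerton-Dyer conjecture holds for all admissible quadratic twists of `E`**,
   with rank `0` for root number `1` and **rank `1` for root number `-1`**.
4. `p = 2`, `b ≤ 1`: **the conjecture holds for `E` over all multiquadratic extensions `K'` of `K` with admissible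
   characters, and the rank of `E(K')` is the number of the characters with root number `-1`**.
5. `b ≤ deg L(E/K, T)`. So for `K = k(t)`, `E` with conductor of degree at most `5`, 3. and 4. apply, and for
   conductor of degree `4` (for example the Legendre curve and the other extremal rational elliptic surfaces)
   2. with `b = 0`, for all primes `p`.

The proof. The Euler factors of `L(E, χ, T)` outside of the ramified places are congruent to those of `L(E/K, T)`
modulo a place above `p`, because `χ(v) = 1` modulo this place; at the ramified places there is no Euler factor. So
`L(E, χ, T)` is congruent to `L(E/K, T)` times the product of the `P_v(T ^ deg v)` over the ramified places, which do not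
vanish at `1 / q` modulo `p`, as `P_v(1 / q_v) = #E(k_v) / q_v`. (Bounds of this kind are in the starting
library, `W343.BSD.KidaFinal` and `MP_48b749_nt.TwoDivisionGrowth`.) The new point: for the quadratic twists the
parity of the order of vanishing is given by the root number (`sign_parity`: the product of the `- x / q` over the
inverse roots), so the order is determined **also in rank one**, where descent does not determine it, and with Tate's
inequality and the theorem of Gross-Zagier type over function fields so is the rank; and this is uniform in the
twist, so that it gives the rank over all multiquadratic extensions at once.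

In the Lean statement the places, the reduction data and the characters are given, the L-functions are
polynomials with the given Euler products (`IsTwistedL`), without the Euler factors at the ramified places (for
semistable reduction there are none).
-/

set_option autoImplicit false

open Polynomial

namespace Pool.Agent.Results.MP_ff7320_nt.TwistsModP

open Pool.Agent.U273.FS

/-- **Twists modulo `p`.** -/
theorem result {E : Type} [Field E] [CharZero E] [IsAlgClosed E] {S : Places}
    (W : ReductionData S) {p q : ℕ} (hp : p.Prime) (hpq : ¬ p ∣ q) (L : ℤ[X])
    (hL : IsTwistedL W q ∅ (fun _ => (1 : ℤ)) L) :
    (∀ b : ℕ, RootMultiplicityLE p q L b →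
      ∀ (s : ℕ) (Z : Set S.Pl) (χ : S.Pl → E) (A : Multiset E),
        IsAdmissibleTwist W q p s Z χ → HasTwistedL W q Z χ A → analyticRank A q ≤ b) ∧
    (∀ b : ℕ, RootMultiplicityLE p q L b →
      ∀ (s : ℕ) (ι : Type) [Fintype ι] (F : AbelianPExtension W q p s E ι),
        F.rank ≤ F.order ∧ F.order ≤ Fintype.card ι * b ∧
          (b = 0 → F.rank = 0 ∧ F.rank = F.order)) ∧
    (p = 2 → RootMultiplicityLE 2 q L 1 → ∀ Q : QuadraticTwist W q E, Q.SatisfiesBSD) ∧
    (p = 2 → RootMultiplicityLE 2 q L 1 → ∀ (ι : Type) [Fintype ι] (Q : ι → QuadraticTwist W q E),
      multiRank Q = multiAnalyticRank Q ∧ multiRank Q = numberOfMinusSigns Q) ∧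
    RootMultiplicityLE p q L L.natDegree := by
  refine ⟨fun b hb s Z χ A hχ hA => twist_bound W q hp hpq hχ hA hL hb,
    fun b hb s ι _ F => ?_, ?_, ?_, degree_bound W hp hpq hL⟩
  · have h := extension_bound W hp hpq hL hb F
    have ht : F.rank ≤ F.order := F.tate
    refine ⟨ht, h, ?_⟩
    rintro rfl
    rw [mul_zero] at h
    omega
  · rintro rfl hb Q
    exact quadratic_bsd W hpq hL hb Q
  · rintro rfl hb ι _ Q
    exact multi_bsd W hpq hL hb Q

end Pool.Agent.Results.MP_ff7320_nt.TwistsModP
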